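import Pool.Agent.Lib.MP_6d445e_gt.Iface

/-!
# Module GAP: the gap lemma for the P-point
-/

set_option autoImplicit false

universe u v w

open Cardinal Filter

namespace Pool.Agent.Lib.MP_6d445e_gt.H30

open Pool.Agent.Lib.MP_100a6c_lc
open Pool.Agent.Lib.MP_c5d73d_lc.F (pr)
open Pool.Agent.Lib.MP_e6fef2_lc
open Pool.Agent.Lib.MP_6d445e_gt

/-! ## Combinatorics -/

/-- the endpoints of the intervals -/
def pts (h : ℕ → ℕ) (m : ℕ) : ℕ → ℕ
  | 0 => m
  | r + 1 => max (pts h m r + 1) (h (pts h m r))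

/-- the union of the even intervals -/
def Ev (h : ℕ → ℕ) (m n : ℕ) : Prop := ∃ r, r % 2 = 0 ∧ pts h m r ≤ n ∧ n < pts h m (r + 1)

theorem pts_succ (h : ℕ → ℕ) (m r : ℕ) : pts h m r < pts h m (r + 1) := by
  show pts h m r < max (pts h m r + 1) (h (pts h m r))
  exact lt_of_lt_of_le (Nat.lt_succ_self _) (le_max_left _ _)

theorem pts_h (h : ℕ → ℕ) (m r : ℕ) : h (pts h m r) ≤ pts h m (r + 1) := by
  show h (pts h m r) ≤ max (pts h m r + 1) (h (pts h m r))
  exact le_max_right _ _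

theorem pts_mono (h : ℕ → ℕ) (m : ℕ) : StrictMono (pts h m) :=
  strictMono_nat_of_lt_succ (pts_succ h m)

theorem pts_ge (h : ℕ → ℕ) (m r : ℕ) : m ≤ pts h m r := (pts_mono h m).monotone (Nat.zero_le r)

theorem pts_unique {h : ℕ → ℕ} {m r r' n : ℕ} (h1 : pts h m r ≤ n) (h2 : n < pts h m (r + 1))
    (h3 : pts h m r' ≤ n) (h4 : n < pts h m (r' + 1)) : r = r' := by
  have hm := pts_mono h m
  have a := hm.lt_iff_lt.1 (h1.trans_lt h4)
  have b := hm.lt_iff_lt.1 (h3.trans_lt h2)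
  omega

/-- from some point on a set which avoids one parity has gaps -/
theorem exists_gap {h : ℕ → ℕ} {m : ℕ} {s : Set ℕ} {M0 : ℕ}
    (hs : (∀ n ∈ s, M0 ≤ n → Ev h m n) ∨ (∀ n ∈ s, M0 ≤ n → ¬ Ev h m n)) :
    ∃ k, m ≤ k ∧ M0 ≤ k ∧ ∀ n ∈ s, k ≤ n → h k ≤ n := by
  have hge : ∀ r, r ≤ pts h m r := fun r => (pts_mono h m).le_apply
  rcases hs with hs | hs
  · refine ⟨pts h m (2 * M0 + 1), pts_ge _ _ _, le_trans (by omega) (hge _), fun n hn hk => ?_⟩
    refine (pts_h h m (2 * M0 + 1)).trans ?_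
    by_contra hcon
    push Not at hcon
    obtain ⟨r, hr, h1, h2⟩ := hs n hn (le_trans (le_trans (by omega) (hge (2 * M0 + 1))) hk)
    have := pts_unique h1 h2 hk hcon
    omega
  · refine ⟨pts h m (2 * M0), pts_ge _ _ _, le_trans (by omega) (hge _), fun n hn hk => ?_⟩
    refine (pts_h h m (2 * M0)).trans ?_
    by_contra hcon
    push Not at hcon
    exact hs n hn (le_trans (le_trans (by omega) (hge (2 * M0))) hk) ⟨2 * M0, by omega, hk, hcon⟩

/-! ## Measurability -/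

section

variable {A : Type u} [CompleteBooleanAlgebra A]

theorem meas_sInf {S : Ult A → Set ℕ} (hS : ∀ j, MeasurableSet {g | j ∈ S g}) :
    Measurable fun g => sInf (S g) := by
  refine measurable_to_countable' fun j => ?_
  have e : (fun g => sInf (S g)) ⁻¹' {j} =
      ({g | j ∈ S g} ∩ ⋂ i, ⋂ _ : i < j, {g | i ∈ S g}ᶜ) ∪
        (if j = 0 then ⋂ i, {g | i ∈ S g}ᶜ else ∅) := by
    ext g
    simp only [Set.mem_preimage, Set.mem_singleton_iff, Set.mem_union, Set.mem_inter_iff,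
      Set.mem_setOf_eq, Set.mem_iInter, Set.mem_compl_iff]
    constructor
    · intro hj
      rcases Set.eq_empty_or_nonempty (S g) with h0 | h0
      · right
        have : j = 0 := by rw [← hj, h0, Nat.sInf_empty]
        rw [if_pos this]
        simp [h0]
      · left
        refine ⟨hj ▸ Nat.sInf_mem h0, fun i hi h1 => ?_⟩
        have := Nat.sInf_le h1
        omega
    · rintro (⟨h1, h2⟩ | h1)
      · refine le_antisymm (Nat.sInf_le h1) ?_
        by_contra hcon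
        push Not at hcon
        exact h2 _ hcon (Nat.sInf_mem ⟨j, h1⟩)
      · split_ifs at h1 with h2
        · simp only [Set.mem_iInter, Set.mem_compl_iff, Set.mem_setOf_eq] at h1
          have : S g = ∅ := Set.eq_empty_of_forall_notMem h1
          rw [this, Nat.sInf_empty, h2]
        · exact absurd h1 (Set.notMem_empty g)
  rw [e]
  refine MeasurableSet.union ((hS j).inter ?_) ?_
  · exact MeasurableSet.iInter fun i => MeasurableSet.iInter fun _ => (hS i).compl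
  · split_ifs
    · exact MeasurableSet.iInter fun i => (hS i).compl
    · exact MeasurableSet.empty

theorem meas_pts {h : Ult A → ℕ → ℕ} (hh : ∀ k, Measurable fun g => h g k) (m r : ℕ) :
    Measurable fun g => pts (h g) m r := by
  induction r with
  | zero => exact measurable_const
  | succ r ih =>
    have h1 : Measurable fun g => h g (pts (h g) m r) := by
      refine measurable_to_countable' fun j => ?_
      have e : (fun g => h g (pts (h g) m r)) ⁻¹' {j} =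
          ⋃ k, ((fun g => pts (h g) m r) ⁻¹' {k}) ∩ ((fun g => h g k) ⁻¹' {j}) := by
        ext g
        simp
      rw [e]
      exact MeasurableSet.iUnion fun k =>
        (ih (MeasurableSet.singleton k)).inter (hh k (MeasurableSet.singleton j))
    exact (ih.add_const 1).max h1

theorem meas_Ev {h : Ult A → ℕ → ℕ} (hh : ∀ k, Measurable fun g => h g k) (m n : ℕ) :
    MeasurableSet {g | Ev (h g) m n} := by
  have e : {g | Ev (h g) m n} = ⋃ r, ⋃ _ : r % 2 = 0,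
      (({g | pts (h g) m r ≤ n} : Set (Ult A)) ∩ {g | n < pts (h g) m (r + 1)}) := by
    ext g
    simp only [Ev, Set.mem_setOf_eq, Set.mem_iUnion, Set.mem_inter_iff, exists_prop]
  rw [e]
  refine MeasurableSet.iUnion fun r => MeasurableSet.iUnion fun _ => ?_
  exact (measurableSet_le (meas_pts hh m r) measurable_const).inter
    (measurableSet_lt measurable_const (meas_pts hh m (r + 1)))

/-- the least `h` with `b k n ∈ g` for `n ∈ B`, `n ≥ h` -/
noncomputable def hf (b : ℕ → ℕ → A) (B : Sw.{u}) (g : Ult A) (k : ℕ) : ℕ :=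
  sInf {h | ∀ n ∈ B.S, h ≤ n → b k n ∈ g}

theorem meas_hf (b : ℕ → ℕ → A) (B : Sw.{u}) (k : ℕ) : Measurable fun g => hf b B g k := by
  refine meas_sInf fun j => ?_
  have e : {g : Ult A | j ∈ {h | ∀ n ∈ B.S, h ≤ n → b k n ∈ g}} =
      ⋂ n, ⋂ _ : n ∈ B.S, ⋂ _ : j ≤ n, {g | b k n ∈ g} := by
    ext g
    simp
  rw [e]
  exact MeasurableSet.iInter fun n => MeasurableSet.iInter fun _ => MeasurableSet.iInter fun _ =>
    measurable_mem A _

theorem exists_y (b : ℕ → ℕ → A) (B : Sw.{u}) (m : ℕ) : ∃ y : ℕ → A, ∀ᶠ g in ae A, ∀ n,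
    y n ∈ g ↔ Ev (hf b B g) m n :=
  exists_name fun n => meas_Ev (meas_hf b B) m n

end

/-! ## The gap lemma -/

theorem gap (hdisj : DisjStatement.{u}) (hng : NgStatement.{u}) (hp2 : P2Statement.{u}) :
    GapStatement.{u} := by
  intro A _ ι hι hPE hPP T
  classical
  -- disjoint refinements
  have hD : ∀ w : ℕ → T → A, ∃ w' : ℕ → T → A, ∀ k, (∀ t, w' k t ≤ w k t) ∧
      (∀ t t', t ≠ t' → w' k t ⊓ w' k t' = ⊥) ∧ ⨆ t, w' k t = ⨆ t, w k t := by
    intro w
    choose w' hw' using fun k => hdisj A T (w k)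
    exact ⟨w', hw'⟩
  choose W hW using hD
  let Bf : (ℕ → T → A) → (ℕ → T → ℕ → A) → ℕ → ℕ → A := fun w b k n => ⨆ t, W w k t ⊓ b k t n
  let φ1 : (ℕ → ℕ → A) → Sw.{u} → A := fun b' B =>
    ι (pr B) ⊓ ⨅ k, ⨆ m, ⨅ n ∈ B.S, ⨅ _ : m ≤ n, b' k n
  choose Y hY using fun (b : ℕ → ℕ → A) (B : Sw.{u}) (m : ℕ) => exists_y b B m
  let φp : (ℕ → A) → Sw.{u} → A := fun y B => ι (pr B) ⊓ ⨅ n ∈ B.S, y n
  let φm : (ℕ → A) → Sw.{u} → A := fun y B => ι (pr B) ⊓ ⨅ n ∈ B.S, cpl y n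
  obtain ⟨-, hctb, hcc, -, -, hfun, hfun2, -⟩ := all_club.{u}
  obtain ⟨-, -, hdm⟩ := all_dmr.{u} Sw.{u}
  filter_upwards [hctb, hng A Sw.{u}, hng A T, hdm, hfun2 _ _ _ Bf, hfun _ _ φ1, hfun _ _ φp,
    hfun _ _ φm, hcc _ fun m => hfun2 _ _ _ (fun b B => Y b B m),
    hcc _ fun k => hfun _ _ (fun w : ℕ → T → A => W w k)]
    with N hN hngS hngT hdmN cB c1 cp cm cY cW
  intro s hs w b hw hb hwb
  set w' := W w with hw'
  set b' := Bf w b with hb'
  have hb'N : In N b' := cB w b hw hb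
  have hcS : Countable {B : Sw.{u} // In N B} := by
    have hinj : Function.Injective (fun B : {B : Sw.{u} // In N B} =>
        (⟨⟨Sw.{u}, B.1⟩, B.2⟩ : N)) := by
      intro B B' h
      have h1 := congrArg Subtype.val h
      simpa [Subtype.ext_iff] using h1
    have : Countable N := hN.to_subtype
    exact hinj.countable
  -- `w' k t ≤ pos ι (b' k)`
  have hpos : ∀ k t, w' k t ≤ pos ι (b' k) := by
    intro k t
    have h1 : w' k t ≤ pos ι (b k t) := ((hW w k).1 t).trans (hwb k t)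
    have h2 : w' k t = ⨆ B : Sw.{u}, w' k t ⊓ (ι (pr B) ⊓ ⨅ n ∈ B.S, b k t n) := by
      rw [← inf_iSup_eq]
      exact (inf_eq_left.2 h1).symm
    rw [h2]
    refine iSup_mono fun B => ?_
    refine le_inf (inf_le_right.trans inf_le_left) (le_iInf fun n => le_iInf fun hn => ?_)
    refine le_trans ?_ (le_iSup (fun t => W w k t ⊓ b k t n) t)
    exact inf_le_inf_left _ (inf_le_right.trans ((iInf_le _ n).trans (iInf_le _ hn)))
  have e1 : ∀ᶠ g in ae A, ∀ (B : {B : Sw.{u} // In N B}) (k : ℕ),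
      (⨆ m, ⨅ n ∈ B.1.S, ⨅ _ : m ≤ n, b' k n) ∈ g ↔
        ∃ m : ℕ, (⨅ n ∈ B.1.S, ⨅ _ : m ≤ n, b' k n) ∈ g :=
    ae_all fun B => ae_all fun k => ae_iSup _
  have e2 : ∀ᶠ g in ae A, ∀ k n, b' k n ∈ g ↔ ∃ t, w' k t ⊓ b k t n ∈ g :=
    ae_all fun k => ae_all fun n => ae_iSup _
  have e3 : ∀ᶠ g in ae A, ∀ (B : {B : Sw.{u} // In N B}) (m n : ℕ),
      Y b' B.1 m n ∈ g ↔ Ev (hf b' B.1 g) m n :=
    ae_all fun B => ae_all fun m => hY b' B.1 m
  filter_upwards [hngS, hngT, e1, e2, e3, ae_iInf fun k => pos ι (b' k)]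
    with g gS gT e1 e2 e3 e4 hsg hgen hwg m
  -- compatible conditions
  have hcomp : ∀ B : Sw.{u}, In N B → ι (pr B) ∈ g → (s.S \ B.S).Finite := by
    intro B hB hBg
    rcases hdmN s B hs hB with h | h
    · exact h
    · exfalso
      have h1 := MP_e6fef2_lc.H42.pr_inf_eq_bot h
      obtain ⟨-, hbot, hinf, -⟩ := all_alg _ _ ι hι
      have h2 : ι (pr s) ⊓ ι (pr B) ∈ g := g.mem_inf.2 ⟨hsg, hBg⟩
      have h3 : ι (pr s) ⊓ ι (pr B) = ⊥ :=
        (hinf (pr s) (pr B)).symm.trans ((congrArg ι h1).trans hbot)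
      rw [h3] at h2
      exact g.not_bot h2
  -- the first condition
  have hP : (⨅ k, pos ι (b' k)) ∈ g := by
    rw [e4]
    intro k
    refine g.mono ?_ (hwg k)
    rw [← (hW w k).2.2]
    exact iSup_le fun t => hpos k t
  obtain ⟨B, hBN, hB⟩ := gS hgen (φ1 b') (c1 b' hb'N) (g.mono (hp2 A ι hι hPE b') hP)
  have hBg : ι (pr B) ∈ g := g.mono inf_le_left hB
  have hBk : ∀ k, ∃ h, ∀ n ∈ B.S, h ≤ n → b' k n ∈ g := by
    intro k
    have h1 : (⨆ m, ⨅ n ∈ B.S, ⨅ _ : m ≤ n, b' k n) ∈ g := g.mono (inf_le_right.trans (iInf_le _ k)) hB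
    obtain ⟨h, hh⟩ := (e1 ⟨B, hBN⟩ k).1 h1
    exact ⟨h, fun n hn hhn => g.mono ((iInf_le _ n).trans ((iInf_le _ hn).trans (iInf_le _ hhn))) hh⟩
  have hhf : ∀ k, ∀ n ∈ B.S, hf b' B g k ≤ n → b' k n ∈ g := fun k => Nat.sInf_mem (hBk k)
  have hfinB := hcomp B hBN hBg
  -- the second condition
  have hyN : In N (Y b' B m) := cY m b' B hb'N hBN
  have hgap : ∃ M0, (∀ n ∈ s.S, M0 ≤ n → Ev (hf b' B g) m n) ∨
      (∀ n ∈ s.S, M0 ≤ n → ¬ Ev (hf b' B g) m n) := by
    have h1 : pos ι (Y b' B m) ⊔ pos ι (cpl (Y b' B m)) ∈ g := by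
      rw [hPP]; exact g.mem_top
    rcases g.mem_sup.1 h1 with h2 | h2
    · obtain ⟨B', hB'N, hB'⟩ := gS hgen (φp (Y b' B m)) (cp _ hyN) h2
      have hfin := hcomp B' hB'N (g.mono inf_le_left hB')
      obtain ⟨M, hM⟩ := hfin.bddAbove
      refine ⟨M + 1, Or.inl fun n hn hMn => ?_⟩
      have hnB : n ∈ B'.S := by
        by_contra hnB
        have := hM ⟨hn, hnB⟩
        omega
      exact (e3 ⟨B, hBN⟩ m n).1
        (g.mono (inf_le_right.trans ((iInf_le _ n).trans (iInf_le _ hnB))) hB')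
    · obtain ⟨B', hB'N, hB'⟩ := gS hgen (φm (Y b' B m)) (cm _ hyN) h2
      have hfin := hcomp B' hB'N (g.mono inf_le_left hB')
      obtain ⟨M, hM⟩ := hfin.bddAbove
      refine ⟨M + 1, Or.inr fun n hn hMn hEv => ?_⟩
      have hnB : n ∈ B'.S := by
        by_contra hnB
        have := hM ⟨hn, hnB⟩
        omega
      have h3 : cpl (Y b' B m) n ∈ g :=
        g.mono (inf_le_right.trans ((iInf_le _ n).trans (iInf_le _ hnB))) hB'
      exact g.mem_compl.1 h3 ((e3 ⟨B, hBN⟩ m n).2 hEv)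
  obtain ⟨M0, hM0⟩ := hgap
  obtain ⟨M1, hM1⟩ := hfinB.bddAbove
  have hM0' : (∀ n ∈ s.S, max M0 (M1 + 1) ≤ n → Ev (hf b' B g) m n) ∨
      (∀ n ∈ s.S, max M0 (M1 + 1) ≤ n → ¬ Ev (hf b' B g) m n) := by
    rcases hM0 with h | h
    · exact Or.inl fun n hn hn' => h n hn ((le_max_left _ _).trans hn')
    · exact Or.inr fun n hn hn' => h n hn ((le_max_left _ _).trans hn')
  obtain ⟨k, hmk, hMk, hk⟩ := exists_gap hM0'
  obtain ⟨t, htN, ht⟩ := gT hgen (w' k) (cW k w hw) (by rw [(hW w k).2.2]; exact hwg k)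
  refine ⟨k, hmk, t, htN, g.mono ((hW w k).1 t) ht, fun n hn hkn => ?_⟩
  have hnB : n ∈ B.S := by
    by_contra hnB
    have := hM1 ⟨hn, hnB⟩
    have := (le_max_right M0 (M1 + 1)).trans hMk
    omega
  obtain ⟨t', ht'⟩ := (e2 k n).1 (hhf k n hnB (hk n hn hkn))
  rw [g.mem_inf] at ht'
  have htt : t = t' := by
    by_contra hne
    have h1 : w' k t ⊓ w' k t' ∈ g := g.mem_inf.2 ⟨ht, ht'.1⟩
    rw [(hW w k).2.1 t t' hne] at h1
    exact g.not_bot h1
  rw [htt]
  exact ht'.2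

end Pool.Agent.Lib.MP_6d445e_gt.H30
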